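import Pool.Agent.Lib.MP_2d002d_gt.PM.Interfaces

/-!
# MP_2d002d_gt, project PM: modules NUM and D2
-/

set_option autoImplicit false

open Set Filter Topology

namespace Pool.Agent.Lib.MP_2d002d_gt.PM.H57

open Pool.Agent.Lib.MP_2d002d_gt.PM

/-- The derivative of the gap is positive. -/
theorem num_aux (L : ℝ) : (2 - L) * Real.exp L ≤ 1 + Real.sqrt 3 := by
  have h1 : 2 - L ≤ Real.exp (1 - L) := by
    have := Real.add_one_le_exp (1 - L)
    linarith
  have h2 : (2 - L) * Real.exp L ≤ Real.exp (1 - L) * Real.exp L :=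
    mul_le_mul_of_nonneg_right h1 (Real.exp_pos L).le
  have h3 : Real.exp (1 - L) * Real.exp L = Real.exp 1 := by
    rw [← Real.exp_add]
    congr 1
    ring
  have h4 : Real.exp 1 < 2.7182818286 := Real.exp_one_lt_d9
  have h5 : (1.72 : ℝ) ≤ Real.sqrt 3 := by
    apply Real.le_sqrt_of_sq_le
    norm_num
  rw [h3] at h2
  norm_num at h4
  linarith

/-- NUM -/
theorem num : NUM_S := by
  intro L hL
  have hder : ∀ x : ℝ, HasDerivAt
      (fun x : ℝ => (2 + Real.sqrt 3) * x - (3 - x) * (Real.exp x - 1))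
      ((1 + Real.sqrt 3) - (2 - x) * Real.exp x) x := by
    intro x
    have h1 : HasDerivAt (fun x : ℝ => (2 + Real.sqrt 3) * x) ((2 + Real.sqrt 3) * 1) x :=
      (hasDerivAt_id x).const_mul _
    have h2 : HasDerivAt (fun x : ℝ => (3 - x)) (0 - 1) x :=
      (hasDerivAt_const x (3 : ℝ)).sub (hasDerivAt_id x)
    have h3 : HasDerivAt (fun x : ℝ => Real.exp x - 1) (Real.exp x) x :=
      (Real.hasDerivAt_exp x).sub_const 1
    have h4 := h1.sub (h2.mul h3)
    refine h4.congr_deriv ?_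
    ring
  have hmono : MonotoneOn (fun x : ℝ => (2 + Real.sqrt 3) * x - (3 - x) * (Real.exp x - 1))
      (Ici 0) := by
    apply monotoneOn_of_deriv_nonneg (convex_Ici 0)
    · exact fun x _ => (hder x).continuousAt.continuousWithinAt
    · exact fun x _ => (hder x).differentiableAt.differentiableWithinAt
    · intro x _
      rw [(hder x).deriv]
      have := num_aux x
      linarith
  have h := hmono (self_mem_Ici) (mem_Ici.mpr hL) hL
  simp only [mul_zero, sub_zero, Real.exp_zero, sub_self] at h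
  linarith

/-- D2 -/
theorem d2 : D2_S := by
  intro f f1 f2 ε B C hε hf hf1 hle
  by_contra hcon
  push Not at hcon
  set D : ℝ := f 0 * f2 - f1 0 ^ 2 + B with hD
  have hDpos : 0 < D := by linarith
  -- the function `ψ` and its derivative `g`
  have hψ : ∀ h : ℝ, |h| < ε → HasDerivAt
      (fun h : ℝ => f h * f (-h) + B * h ^ 2 - C * h ^ 4)
      (f1 h * f (-h) - f h * f1 (-h) + 2 * B * h - 4 * C * h ^ 3) h := by
    intro h hh
    have a1 : HasDerivAt f (f1 h) h := hf h hh
    have a2 : HasDerivAt (fun h : ℝ => f (-h)) (f1 (-h) * (-1)) h := by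
      have b1 : HasDerivAt f (f1 (-h)) (-h) := hf (-h) (by rwa [abs_neg])
      exact b1.comp h (hasDerivAt_neg h)
    have a3 : HasDerivAt (fun h : ℝ => B * h ^ 2) (B * (((2 : ℕ) : ℝ) * h ^ (2 - 1))) h :=
      (hasDerivAt_pow 2 h).const_mul B
    have a4 : HasDerivAt (fun h : ℝ => C * h ^ 4) (C * (((4 : ℕ) : ℝ) * h ^ (4 - 1))) h :=
      (hasDerivAt_pow 4 h).const_mul C
    have a5 := ((a1.mul a2).add a3).sub a4
    refine a5.congr_deriv ?_
    push_cast
    ring
  have hg : HasDerivAt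
      (fun h : ℝ => f1 h * f (-h) - f h * f1 (-h) + 2 * B * h - 4 * C * h ^ 3)
      (2 * D) 0 := by
    have e1 : HasDerivAt f (f1 0) 0 := hf 0 (by simpa using hε)
    have e2 : HasDerivAt (fun h : ℝ => f (-h)) (f1 0 * (-1)) 0 := by
      have b1 : HasDerivAt f (f1 0) (-0) := by simpa using e1
      exact b1.comp 0 (hasDerivAt_neg 0)
    have e3 : HasDerivAt (fun h : ℝ => f1 (-h)) (f2 * (-1)) 0 := by
      have b1 : HasDerivAt f1 f2 (-0) := by simpa using hf1
      exact b1.comp 0 (hasDerivAt_neg 0)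
    have e4 : HasDerivAt (fun h : ℝ => 2 * B * h) (2 * B * 1) 0 :=
      (hasDerivAt_id (0 : ℝ)).const_mul _
    have e5 : HasDerivAt (fun h : ℝ => 4 * C * h ^ 3)
        (4 * C * (((3 : ℕ) : ℝ) * (0 : ℝ) ^ (3 - 1))) 0 :=
      (hasDerivAt_pow 3 (0 : ℝ)).const_mul _
    have e6 := (((hf1.mul e2).sub (e1.mul e3)).add e4).sub e5
    refine e6.congr_deriv ?_
    simp only [neg_zero]
    rw [hD]
    push_cast
    ring
  -- `g` is positive to the right of `0`
  have hpos : ∀ᶠ h in 𝓝[>] (0 : ℝ),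
      0 < f1 h * f (-h) - f h * f1 (-h) + 2 * B * h - 4 * C * h ^ 3 := by
    have t1 := hasDerivAt_iff_tendsto_slope.mp hg
    have t2 : ∀ᶠ h in 𝓝[≠] (0 : ℝ), (0 : ℝ) < slope
        (fun h : ℝ => f1 h * f (-h) - f h * f1 (-h) + 2 * B * h - 4 * C * h ^ 3) 0 h :=
      t1.eventually (lt_mem_nhds (by linarith : (0 : ℝ) < 2 * D))
    have t3 : 𝓝[>] (0 : ℝ) ≤ 𝓝[≠] (0 : ℝ) :=
      nhdsWithin_mono 0 (fun x hx => ne_of_gt hx)
    filter_upwards [t3 t2, self_mem_nhdsWithin] with h hh hh0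
    have hh0' : 0 < h := hh0
    rw [slope_def_field] at hh
    simp only [neg_zero, sub_zero, mul_zero] at hh
    have h6 : f1 0 * f 0 - f 0 * f1 0 + 0 - 4 * C * 0 ^ 3 = 0 := by ring
    rw [h6, sub_zero] at hh
    exact (div_pos_iff_of_pos_right hh0').mp hh
  obtain ⟨δ, hδ, hδ2⟩ := (mem_nhdsGT_iff_exists_Ioo_subset).mp hpos
  have hδ0 : 0 < δ := hδ
  set η : ℝ := min δ ε / 2 with hη
  have hm : 0 < min δ ε := lt_min hδ0 hε
  have hη0 : 0 < η := by positivity
  have hηδ : η < δ := by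
    have := min_le_left δ ε
    rw [hη]; linarith
  have hηε : η < ε := by
    have := min_le_right δ ε
    rw [hη]; linarith
  have hmono : StrictMonoOn (fun h : ℝ => f h * f (-h) + B * h ^ 2 - C * h ^ 4) (Icc 0 η) := by
    apply strictMonoOn_of_deriv_pos (convex_Icc 0 η)
    · intro x hx
      apply (hψ x _).continuousAt.continuousWithinAt
      rw [abs_of_nonneg hx.1]
      linarith [hx.2]
    · intro x hx
      rw [interior_Icc] at hx
      have hx1 : |x| < ε := by
        rw [abs_of_pos hx.1]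
        linarith [hx.2]
      rw [(hψ x hx1).deriv]
      have hx2 : x ∈ Ioo 0 δ := ⟨hx.1, by linarith [hx.2]⟩
      exact hδ2 hx2
  have h1 := hmono (left_mem_Icc.mpr hη0.le) (right_mem_Icc.mpr hη0.le) hη0
  have h2 := hle η hη0 hηε
  simp only [neg_zero] at h1
  nlinarith [h1, h2]

end Pool.Agent.Lib.MP_2d002d_gt.PM.H57
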